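import Mathlib

/-!
# Definitions: Banach algebras, property (S), Jacobson radical, quotient by an ideal
-/

set_option autoImplicit false

namespace Pool.Agent.Lib.MP_a0c03c_an

/-- A complex Banach algebra: an associative complex algebra, not necessarily commutative or
unital, with a complete submultiplicative norm. -/
structure BanachAlgebra where
  /-- the underlying set -/
  carrier : Type
  [ring : NonUnitalNormedRing carrier]
  [space : NormedSpace ℂ carrier]
  [smul_mul : IsScalarTower ℂ carrier carrier]
  [mul_smul : SMulCommClass ℂ carrier carrier]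
  [complete : CompleteSpace carrier]

namespace BanachAlgebra

instance : CoeSort BanachAlgebra Type := ⟨BanachAlgebra.carrier⟩

attribute [instance] ring space smul_mul mul_smul complete

end BanachAlgebra

/-- Property (S) of a Banach algebra `A`: there is a constant `C > 0` such that every `x` in `A²`
(the linear span of all products `a * b`) is a finite sum `∑ i, a i * b i` with
`∑ i, ‖a i‖ * ‖b i‖ ≤ C * ‖x‖`. -/
def PropertyS (A : BanachAlgebra) : Prop :=
  ∃ C : ℝ, 0 < C ∧ ∀ x ∈ Submodule.span ℂ {z : A | ∃ a b : A, z = a * b},
    ∃ (n : ℕ) (a b : Fin n → A),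
      x = ∑ i, a i * b i ∧ ∑ i, ‖a i‖ * ‖b i‖ ≤ C * ‖x‖

/-- The Jacobson radical of a not necessarily unital complex algebra `A`: the elements of `A`
which, seen in the unitization of `A`, lie in the Jacobson radical of that unital ring. -/
noncomputable def rad (A : Type) [NonUnitalRing A] [Module ℂ A] [IsScalarTower ℂ A A]
    [SMulCommClass ℂ A A] : Submodule ℂ A :=
  ((Ring.jacobson (Unitization ℂ A)).restrictScalars ℂ).comap (Unitization.inrHom ℂ ℂ A)

/-- The algebra homomorphism `φ : A → B` exhibits the Banach algebra `B` as the quotient `A / R` of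
the Banach algebra `A` by the ideal `R`, with the quotient norm: `φ` is onto, its kernel is `R`,
and `‖φ a‖` is the infimum of `‖a + r‖` over `r ∈ R`. -/
structure IsQuotient (A B : BanachAlgebra) (R : Submodule ℂ A) (φ : A →ₙₐ[ℂ] B) : Prop where
  surjective : Function.Surjective φ
  ker : ∀ a : A, φ a = 0 ↔ a ∈ R
  norm_eq : ∀ a : A, ‖φ a‖ = ⨅ r : R, ‖a + (r : A)‖

end Pool.Agent.Lib.MP_a0c03c_an
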