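import Mathlib
import Pool.Agent.Lib.MP_a0c03c_an.Defs

/-!
# A Banach algebra with property (S) whose quotient by the radical fails property (S)

We construct a commutative Banach algebra `A` (called `TA` below) whose Jacobson radical `R` is
one-dimensional, such that `A` has property (S) and `A / R` does not.

Sketch. Let `M = ℓ¹(ℕ)` with pointwise product, so that the span `M²` of products consists of the
sequences with summable square roots, and let `q ∈ M`, `q i = 1 / (i + 1) ^ 2`, so `q ∉ M²`.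
Up to a harmless rescaling of the product, `A` is the algebra of all `c + (a + α) x + μ r` with
`c, a ∈ M` and `α, μ ∈ ℂ`, where `x * x = q + r` and `r` annihilates everything.
-/

set_option autoImplicit false

namespace Pool.Agent.Lib.MP_a0c03c_an

open scoped ENNReal

/-- Unbundled form of property (S). -/
def PropS (A : Type) [NonUnitalNormedRing A] [NormedSpace ℂ A] : Prop :=
  ∃ C : ℝ, 0 < C ∧ ∀ x ∈ Submodule.span ℂ {z : A | ∃ a b : A, z = a * b},
    ∃ (n : ℕ) (a b : Fin n → A),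
      x = ∑ i, a i * b i ∧ ∑ i, ‖a i‖ * ‖b i‖ ≤ C * ‖x‖

/-! ### The sequence space `ℓ¹` -/

/-- The Banach space `ℓ¹(ℕ)`. -/
abbrev L1 : Type := lp (fun _ : ℕ => ℂ) 1

lemma memL1 {f : ℕ → ℂ} (h : Summable fun i => ‖f i‖) : Memℓp f (1 : ℝ≥0∞) := by
  apply memℓp_gen
  simpa using h

def mkL1 (f : ℕ → ℂ) (h : Summable fun i => ‖f i‖) : L1 := ⟨f, memL1 h⟩

@[simp] lemma mkL1_apply (f : ℕ → ℂ) (h : Summable fun i => ‖f i‖) (i : ℕ) : mkL1 f h i = f i := rfl

lemma summ (f : L1) : Summable fun i => ‖f i‖ := by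
  have := (lp.memℓp f).summable (by simp)
  simpa using this

lemma normL1 (f : L1) : ‖f‖ = ∑' i, ‖f i‖ := by
  have := lp.norm_eq_tsum_rpow (p := 1) (by simp) f
  simpa using this

lemma apply_le (f : L1) (i : ℕ) : ‖f i‖ ≤ ‖f‖ := lp.norm_apply_le_norm (by simp) f i

lemma norm_mkL1_le (f : ℕ → ℂ) (h : Summable fun i => ‖f i‖) (g : ℕ → ℝ) (hg : Summable g)
    (hfg : ∀ i, ‖f i‖ ≤ g i) : ‖mkL1 f h‖ ≤ ∑' i, g i := by
  rw [normL1]
  exact h.tsum_le_tsum (fun i => hfg i) hg

/-- the sequence `1/(i+1)` -/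
noncomputable def sf (i : ℕ) : ℝ := 1 / ((i : ℝ) + 1)

noncomputable def qf (i : ℕ) : ℝ := sf i ^ 2

lemma qf_summable : Summable qf := by
  have h : Summable fun i : ℕ => 1 / ((i : ℝ)) ^ 2 := Real.summable_one_div_nat_pow.mpr (by norm_num)
  have h2 := (summable_nat_add_iff 1).mpr h
  refine h2.congr (fun i => ?_)
  simp [qf, sf]

lemma sf_pos (i : ℕ) : 0 < sf i := by unfold sf; positivity

lemma qf_pos (i : ℕ) : 0 < qf i := by unfold qf; have := sf_pos i; positivity

lemma sf_not_summable : ¬ Summable sf := by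
  intro h
  have h2 : Summable fun i : ℕ => 1 / (((i + 1 : ℕ)) : ℝ) := by
    refine h.congr (fun i => ?_)
    simp [sf]
  have h3 := (summable_nat_add_iff (f := fun i : ℕ => 1 / (i : ℝ)) 1).mp h2
  exact Real.not_summable_one_div_natCast h3

noncomputable def qL : L1 := mkL1 (fun i => (qf i : ℂ)) (by
  have := qf_summable
  refine this.congr (fun i => ?_)
  simp [abs_of_pos (qf_pos i)])

@[simp] lemma qL_apply (i : ℕ) : qL i = (qf i : ℂ) := rfl

noncomputable def kap : ℝ := 1 / (4 + 4 * ‖qL‖)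

lemma kap_pos : 0 < kap := by unfold kap; positivity

/-! ### The quotient algebra `TB` -/

/-- Underlying Banach space of the semisimple algebra: triples `(c, a, α)` standing for
`c + (a + α) x`. -/
def TB : Type := L1 × L1 × ℂ

noncomputable instance : NormedAddCommGroup TB := inferInstanceAs (NormedAddCommGroup (L1 × L1 × ℂ))
noncomputable instance : NormedSpace ℂ TB := inferInstanceAs (NormedSpace ℂ (L1 × L1 × ℂ))
noncomputable instance : CompleteSpace TB := inferInstanceAs (CompleteSpace (L1 × L1 × ℂ))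

namespace TB

def c (p : TB) : L1 := p.1
def a (p : TB) : L1 := p.2.1
def α (p : TB) : ℂ := p.2.2

def mk (c a : L1) (α : ℂ) : TB := (c, a, α)

@[simp] lemma c_mk (c a : L1) (α : ℂ) : (mk c a α).c = c := rfl
@[simp] lemma a_mk (c a : L1) (α : ℂ) : (mk c a α).a = a := rfl
@[simp] lemma α_mk (c a : L1) (α : ℂ) : (mk c a α).α = α := rfl
@[simp] lemma c_add (p p' : TB) : (p + p').c = p.c + p'.c := rfl
@[simp] lemma a_add (p p' : TB) : (p + p').a = p.a + p'.a := rfl
@[simp] lemma α_add (p p' : TB) : (p + p').α = p.α + p'.α := rfl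
@[simp] lemma c_zero : (0 : TB).c = 0 := rfl
@[simp] lemma a_zero : (0 : TB).a = 0 := rfl
@[simp] lemma α_zero : (0 : TB).α = 0 := rfl
@[simp] lemma c_smul (t : ℂ) (p : TB) : (t • p).c = t • p.c := rfl
@[simp] lemma a_smul (t : ℂ) (p : TB) : (t • p).a = t • p.a := rfl
@[simp] lemma α_smul (t : ℂ) (p : TB) : (t • p).α = t * p.α := rfl

lemma norm_c_le (p : TB) : ‖p.c‖ ≤ ‖p‖ := norm_fst_le p
lemma norm_a_le (p : TB) : ‖p.a‖ ≤ ‖p‖ := (norm_fst_le p.2).trans (norm_snd_le p)
lemma norm_α_le (p : TB) : ‖p.α‖ ≤ ‖p‖ := (norm_snd_le p.2).trans (norm_snd_le p)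
lemma norm_le_iff (p : TB) (r : ℝ) : ‖p‖ ≤ r ↔ ‖p.c‖ ≤ r ∧ ‖p.a‖ ≤ r ∧ ‖p.α‖ ≤ r := by
  rw [show ‖p‖ = max ‖p.c‖ (max ‖p.a‖ ‖p.α‖) from rfl]
  simp

lemma ext' {p p' : TB} (h1 : ∀ i, p.c i = p'.c i) (h2 : ∀ i, p.a i = p'.a i) (h3 : p.α = p'.α) :
    p = p' := by
  have e1 : p.c = p'.c := lp.ext (funext h1)
  have e2 : p.a = p'.a := lp.ext (funext h2)
  exact Prod.ext e1 (Prod.ext e2 h3)

/-- value of the `x`-coefficient at `i` -/
def ev (p : TB) (i : ℕ) : ℂ := p.a i + p.α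

lemma norm_ev_le (p : TB) (i : ℕ) : ‖p.ev i‖ ≤ 2 * ‖p‖ := by
  unfold ev
  calc ‖p.a i + p.α‖ ≤ ‖p.a i‖ + ‖p.α‖ := norm_add_le _ _
    _ ≤ ‖p‖ + ‖p‖ := add_le_add ((apply_le _ _).trans (norm_a_le p)) (norm_α_le p)
    _ = 2 * ‖p‖ := by ring

noncomputable def mulc (p p' : TB) (i : ℕ) : ℂ := kap * (p.c i * p'.c i + p.ev i * p'.ev i * (qf i : ℂ))
noncomputable def mula (p p' : TB) (i : ℕ) : ℂ := kap * (p.ev i * p'.c i + p'.ev i * p.c i)

lemma mulc_le (p p' : TB) (i : ℕ) :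
    ‖mulc p p' i‖ ≤ kap * (‖p.c i‖ * ‖p'‖ + 4 * ‖p‖ * ‖p'‖ * ‖qL i‖) := by
  unfold mulc
  rw [norm_mul]
  rw [show ‖(kap : ℂ)‖ = kap by simp [abs_of_pos kap_pos]]
  apply mul_le_mul_of_nonneg_left _ kap_pos.le
  refine (norm_add_le _ _).trans ?_
  rw [norm_mul, norm_mul, norm_mul]
  apply add_le_add
  · exact mul_le_mul_of_nonneg_left ((apply_le _ _).trans (norm_c_le p')) (norm_nonneg _)
  · rw [qL_apply]
    apply mul_le_mul_of_nonneg_right _ (norm_nonneg _)
    calc ‖p.ev i‖ * ‖p'.ev i‖ ≤ (2 * ‖p‖) * (2 * ‖p'‖) :=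
          mul_le_mul (norm_ev_le _ _) (norm_ev_le _ _) (norm_nonneg _) (by positivity)
      _ = 4 * ‖p‖ * ‖p'‖ := by ring

lemma mula_le (p p' : TB) (i : ℕ) :
    ‖mula p p' i‖ ≤ kap * (2 * ‖p‖ * ‖p'.c i‖ + 2 * ‖p'‖ * ‖p.c i‖) := by
  unfold mula
  rw [norm_mul]
  rw [show ‖(kap : ℂ)‖ = kap by simp [abs_of_pos kap_pos]]
  apply mul_le_mul_of_nonneg_left _ kap_pos.le
  refine (norm_add_le _ _).trans ?_
  rw [norm_mul, norm_mul]
  apply add_le_add
  · exact mul_le_mul_of_nonneg_right (norm_ev_le _ _) (norm_nonneg _)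
  · exact mul_le_mul_of_nonneg_right (norm_ev_le _ _) (norm_nonneg _)

lemma mulc_bd_summable (p p' : TB) :
    Summable fun i => kap * (‖p.c i‖ * ‖p'‖ + 4 * ‖p‖ * ‖p'‖ * ‖qL i‖) :=
  (((summ p.c).mul_right _).add ((summ qL).mul_left _)).mul_left _

lemma mula_bd_summable (p p' : TB) :
    Summable fun i => kap * (2 * ‖p‖ * ‖p'.c i‖ + 2 * ‖p'‖ * ‖p.c i‖) :=
  (((summ p'.c).mul_left _).add ((summ p.c).mul_left _)).mul_left _

lemma mulc_summable (p p' : TB) : Summable fun i => ‖mulc p p' i‖ :=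
  Summable.of_nonneg_of_le (fun _ => norm_nonneg _) (mulc_le p p') (mulc_bd_summable p p')

lemma mula_summable (p p' : TB) : Summable fun i => ‖mula p p' i‖ :=
  Summable.of_nonneg_of_le (fun _ => norm_nonneg _) (mula_le p p') (mula_bd_summable p p')

noncomputable instance : Mul TB where
  mul p p' := mk (mkL1 (mulc p p') (mulc_summable p p')) (mkL1 (mula p p') (mula_summable p p')) 0

@[simp] lemma c_mul (p p' : TB) (i : ℕ) :
    (p * p').c i = kap * (p.c i * p'.c i + (p.a i + p.α) * (p'.a i + p'.α) * (qf i : ℂ)) := rfl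
@[simp] lemma a_mul (p p' : TB) (i : ℕ) :
    (p * p').a i = kap * ((p.a i + p.α) * p'.c i + (p'.a i + p'.α) * p.c i) := rfl
@[simp] lemma α_mul (p p' : TB) : (p * p').α = 0 := rfl

@[simp] lemma c_add_apply (p p' : TB) (i : ℕ) : (p + p').c i = p.c i + p'.c i := rfl
@[simp] lemma a_add_apply (p p' : TB) (i : ℕ) : (p + p').a i = p.a i + p'.a i := rfl
@[simp] lemma c_smul_apply (t : ℂ) (p : TB) (i : ℕ) : (t • p).c i = t * p.c i := rfl
@[simp] lemma a_smul_apply (t : ℂ) (p : TB) (i : ℕ) : (t • p).a i = t * p.a i := rfl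
@[simp] lemma c_zero_apply (i : ℕ) : (0 : TB).c i = 0 := rfl
@[simp] lemma a_zero_apply (i : ℕ) : (0 : TB).a i = 0 := rfl

protected lemma mul_comm' (p p' : TB) : p * p' = p' * p := by
  apply ext' <;> (try intro i) <;> simp only [c_mul, a_mul, α_mul] <;> ring

protected lemma mul_assoc' (p p' p'' : TB) : p * p' * p'' = p * (p' * p'') := by
  apply ext' <;> (try intro i) <;> simp only [c_mul, a_mul, α_mul] <;> ring

protected lemma left_distrib' (p p' p'' : TB) : p * (p' + p'') = p * p' + p * p'' := by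
  apply ext' <;> (try intro i) <;> simp <;> ring

protected lemma smul_mul' (t : ℂ) (p p' : TB) : t • p * p' = t • (p * p') := by
  apply ext' <;> (try intro i) <;> simp <;> ring

protected lemma zero_mul' (p : TB) : 0 * p = 0 := by
  apply ext' <;> (try intro i) <;> simp

lemma kap_mul_le : kap * (1 + 4 * ‖qL‖) ≤ 1 := by
  unfold kap
  rw [one_div, inv_mul_le_iff₀ (by positivity)]
  linarith

lemma kap_mul_le' : kap * 4 ≤ 1 := by
  unfold kap
  rw [one_div, inv_mul_le_iff₀ (by positivity)]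
  linarith [norm_nonneg qL]

protected lemma norm_mul_le' (p p' : TB) : ‖p * p'‖ ≤ ‖p‖ * ‖p'‖ := by
  rw [norm_le_iff]
  refine ⟨?_, ?_, ?_⟩
  · refine (norm_mkL1_le _ (mulc_summable p p') _ (mulc_bd_summable p p') (mulc_le p p')).trans ?_
    rw [tsum_mul_left, ((summ p.c).mul_right _).tsum_add ((summ qL).mul_left _), tsum_mul_right,
      tsum_mul_left, ← normL1, ← normL1]
    calc kap * (‖p.c‖ * ‖p'‖ + 4 * ‖p‖ * ‖p'‖ * ‖qL‖)
        ≤ kap * (‖p‖ * ‖p'‖ + 4 * ‖p‖ * ‖p'‖ * ‖qL‖) := by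
          apply mul_le_mul_of_nonneg_left _ kap_pos.le
          apply add_le_add_left
          exact mul_le_mul_of_nonneg_right (norm_c_le p) (norm_nonneg _)
      _ = (kap * (1 + 4 * ‖qL‖)) * (‖p‖ * ‖p'‖) := by ring
      _ ≤ 1 * (‖p‖ * ‖p'‖) := mul_le_mul_of_nonneg_right kap_mul_le (by positivity)
      _ = ‖p‖ * ‖p'‖ := one_mul _
  · refine (norm_mkL1_le _ (mula_summable p p') _ (mula_bd_summable p p') (mula_le p p')).trans ?_
    rw [tsum_mul_left, ((summ p'.c).mul_left _).tsum_add ((summ p.c).mul_left _), tsum_mul_left,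
      tsum_mul_left, ← normL1, ← normL1]
    calc kap * (2 * ‖p‖ * ‖p'.c‖ + 2 * ‖p'‖ * ‖p.c‖)
        ≤ kap * (2 * ‖p‖ * ‖p'‖ + 2 * ‖p'‖ * ‖p‖) := by
          apply mul_le_mul_of_nonneg_left _ kap_pos.le
          apply add_le_add
          · exact mul_le_mul_of_nonneg_left (norm_c_le p') (by positivity)
          · exact mul_le_mul_of_nonneg_left (norm_c_le p) (by positivity)
      _ = (kap * 4) * (‖p‖ * ‖p'‖) := by ring
      _ ≤ 1 * (‖p‖ * ‖p'‖) := mul_le_mul_of_nonneg_right kap_mul_le' (by positivity)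
      _ = ‖p‖ * ‖p'‖ := one_mul _
  · rw [α_mul]; simp; positivity

noncomputable instance : NonUnitalNormedCommRing TB :=
  { (inferInstance : NormedAddCommGroup TB) with
    mul := (· * ·)
    left_distrib := TB.left_distrib'
    right_distrib := fun p p' p'' => by
      rw [TB.mul_comm', TB.left_distrib', TB.mul_comm' p'' p, TB.mul_comm' p'' p']
    zero_mul := TB.zero_mul'
    mul_zero := fun p => by rw [TB.mul_comm', TB.zero_mul']
    mul_assoc := TB.mul_assoc'
    mul_comm := TB.mul_comm'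
    norm_mul_le := TB.norm_mul_le' }

instance : IsScalarTower ℂ TB TB := ⟨fun t p p' => by
  simpa [smul_eq_mul] using TB.smul_mul' t p p'⟩

instance : SMulCommClass ℂ TB TB := ⟨fun t p p' => by
  have := TB.smul_mul' t p' p
  simp only [smul_eq_mul]
  rw [mul_comm p (t • p'), mul_comm p p', this]⟩

end TB

/-! ### The algebra `TA` -/

/-- Underlying Banach space of the algebra with one-dimensional radical: pairs `(b, μ)`. -/
def TA : Type := TB × ℂ

noncomputable instance : NormedAddCommGroup TA := inferInstanceAs (NormedAddCommGroup (TB × ℂ))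
noncomputable instance : NormedSpace ℂ TA := inferInstanceAs (NormedSpace ℂ (TB × ℂ))
noncomputable instance : CompleteSpace TA := inferInstanceAs (CompleteSpace (TB × ℂ))

namespace TA

def b (p : TA) : TB := p.1
def μ (p : TA) : ℂ := p.2

def mk (b : TB) (μ : ℂ) : TA := (b, μ)

@[simp] lemma b_mk (b : TB) (μ : ℂ) : (mk b μ).b = b := rfl
@[simp] lemma μ_mk (b : TB) (μ : ℂ) : (mk b μ).μ = μ := rfl
@[simp] lemma b_add (p p' : TA) : (p + p').b = p.b + p'.b := rfl
@[simp] lemma μ_add (p p' : TA) : (p + p').μ = p.μ + p'.μ := rfl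
@[simp] lemma b_zero : (0 : TA).b = 0 := rfl
@[simp] lemma μ_zero : (0 : TA).μ = 0 := rfl
@[simp] lemma b_smul (t : ℂ) (p : TA) : (t • p).b = t • p.b := rfl
@[simp] lemma μ_smul (t : ℂ) (p : TA) : (t • p).μ = t * p.μ := rfl

lemma norm_b_le (p : TA) : ‖p.b‖ ≤ ‖p‖ := norm_fst_le p
lemma norm_μ_le (p : TA) : ‖p.μ‖ ≤ ‖p‖ := norm_snd_le p
lemma norm_le_iff (p : TA) (r : ℝ) : ‖p‖ ≤ r ↔ ‖p.b‖ ≤ r ∧ ‖p.μ‖ ≤ r := by
  rw [show ‖p‖ = max ‖p.b‖ ‖p.μ‖ from rfl]
  simp

lemma ext' {p p' : TA} (h1 : p.b = p'.b) (h2 : p.μ = p'.μ) : p = p' := Prod.ext h1 h2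

noncomputable instance : Mul TA where
  mul p p' := mk (p.b * p'.b) (kap * (p.b.α * p'.b.α))

@[simp] lemma b_mul (p p' : TA) : (p * p').b = p.b * p'.b := rfl
@[simp] lemma μ_mul (p p' : TA) : (p * p').μ = kap * (p.b.α * p'.b.α) := rfl

protected lemma mul_comm' (p p' : TA) : p * p' = p' * p := by
  apply ext'
  · simp only [b_mul]; rw [mul_comm]
  · simp only [μ_mul]; ring

protected lemma mul_assoc' (p p' p'' : TA) : p * p' * p'' = p * (p' * p'') := by
  apply ext'
  · simp only [b_mul]; rw [mul_assoc]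
  · simp only [μ_mul, b_mul, TB.α_mul]; ring

protected lemma left_distrib' (p p' p'' : TA) : p * (p' + p'') = p * p' + p * p'' := by
  apply ext'
  · simp only [b_mul, b_add]; rw [mul_add]
  · simp only [μ_mul, b_add, TB.α_add, μ_add]; ring

protected lemma smul_mul' (t : ℂ) (p p' : TA) : t • p * p' = t • (p * p') := by
  apply ext'
  · simp only [b_mul, b_smul]; rw [smul_mul_assoc]
  · simp only [μ_mul, b_smul, TB.α_smul, μ_smul]; ring

protected lemma zero_mul' (p : TA) : 0 * p = 0 := by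
  apply ext'
  · simp only [b_mul, b_zero]; rw [zero_mul]
  · simp only [μ_mul, b_zero, TB.α_zero, μ_zero]; ring

protected lemma norm_mul_le' (p p' : TA) : ‖p * p'‖ ≤ ‖p‖ * ‖p'‖ := by
  rw [norm_le_iff]
  refine ⟨?_, ?_⟩
  · rw [b_mul]
    exact (norm_mul_le _ _).trans (mul_le_mul (norm_b_le _) (norm_b_le _) (norm_nonneg _) (norm_nonneg _))
  · rw [μ_mul, norm_mul, norm_mul, show ‖(kap : ℂ)‖ = kap by simp [abs_of_pos kap_pos]]
    have h1 : ‖p.b.α‖ * ‖p'.b.α‖ ≤ ‖p‖ * ‖p'‖ :=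
      mul_le_mul ((TB.norm_α_le _).trans (norm_b_le _)) ((TB.norm_α_le _).trans (norm_b_le _))
        (norm_nonneg _) (norm_nonneg _)
    have h2 : kap ≤ 1 := by have := TB.kap_mul_le'; linarith [kap_pos]
    calc kap * (‖p.b.α‖ * ‖p'.b.α‖) ≤ 1 * (‖p‖ * ‖p'‖) :=
          mul_le_mul h2 h1 (by positivity) zero_le_one
      _ = _ := one_mul _

noncomputable instance : NonUnitalNormedCommRing TA :=
  { (inferInstance : NormedAddCommGroup TA) with
    mul := (· * ·)
    left_distrib := TA.left_distrib'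
    right_distrib := fun p p' p'' => by
      rw [TA.mul_comm', TA.left_distrib', TA.mul_comm' p'' p, TA.mul_comm' p'' p']
    zero_mul := TA.zero_mul'
    mul_zero := fun p => by rw [TA.mul_comm', TA.zero_mul']
    mul_assoc := TA.mul_assoc'
    mul_comm := TA.mul_comm'
    norm_mul_le := TA.norm_mul_le' }

instance : IsScalarTower ℂ TA TA := ⟨fun t p p' => by
  simpa [smul_eq_mul] using TA.smul_mul' t p p'⟩

instance : SMulCommClass ℂ TA TA := ⟨fun t p p' => by
  have := TA.smul_mul' t p' p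
  simp only [smul_eq_mul]
  rw [mul_comm p (t • p'), mul_comm p p', this]⟩

/-- the quotient map -/
def φ : TA →ₙₐ[ℂ] TB where
  toFun p := p.b
  map_smul' _ _ := rfl
  map_zero' := rfl
  map_add' _ _ := rfl
  map_mul' _ _ := rfl

@[simp] lemma φ_apply (p : TA) : φ p = p.b := rfl

/-- the characters -/
noncomputable def χ (ε : ℝ) (hε : ε ^ 2 = 1) (i : ℕ) : TA →ₙₐ[ℂ] ℂ where
  toFun p := kap * (p.b.c i + ε * ((p.b.a i + p.b.α) * (sf i : ℂ)))
  map_smul' t p := by simp; ring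
  map_zero' := by simp
  map_add' p p' := by simp; ring
  map_mul' p p' := by
    have hε' : (ε : ℂ) ^ 2 = 1 := by exact_mod_cast hε
    have hq : (qf i : ℂ) = (sf i : ℂ) ^ 2 := by simp [qf]
    simp only [b_mul, TB.c_mul, TB.a_mul, TB.α_mul, hq]
    linear_combination (-(kap : ℂ)^2 * ((p.b.a i + p.b.α) * (p'.b.a i + p'.b.α) * (sf i : ℂ)^2)) * hε'

lemma χ_apply (ε : ℝ) (hε : ε ^ 2 = 1) (i : ℕ) (p : TA) :
    χ ε hε i p = kap * (p.b.c i + ε * ((p.b.a i + p.b.α) * (sf i : ℂ))) := rfl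

lemma χ_rad (ε : ℝ) (hε : ε ^ 2 = 1) (i : ℕ) (p : TA) (hp : p ∈ rad TA) : χ ε hε i p = 0 := by
  have h1 : (Unitization.inrHom ℂ ℂ TA p) ∈ Ring.jacobson (Unitization ℂ TA) := hp
  set ψ : Unitization ℂ TA →ₐ[ℂ] ℂ := Unitization.lift (χ ε hε i) with hψ
  have hs : Function.Surjective ψ := fun z => ⟨algebraMap ℂ _ z, by simp⟩
  have hmax : (RingHom.ker ψ).IsMaximal := RingHom.ker_isMaximal_of_surjective ψ hs
  have h2 : Unitization.inrHom ℂ ℂ TA p ∈ RingHom.ker ψ := by
    rw [Ring.jacobson_eq_sInf_isMaximal] at h1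
    exact (Submodule.mem_sInf.mp h1) _ hmax
  have h3 : ψ (Unitization.inrHom ℂ ℂ TA p) = 0 := h2
  have h4 : ψ (Unitization.inr p) = χ ε hε i p := by rw [hψ]; simp
  rw [← h4]
  exact h3

lemma b_eq_zero_of_rad (p : TA) (hp : p ∈ rad TA) : p.b = 0 := by
  have hk : (kap : ℂ) ≠ 0 := by exact_mod_cast kap_pos.ne'
  have key : ∀ i, p.b.c i = 0 ∧ p.b.a i + p.b.α = 0 := by
    intro i
    have h1 := χ_rad 1 (by norm_num) i p hp
    have h2 := χ_rad (-1) (by norm_num) i p hp
    rw [χ_apply] at h1 h2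
    have h1' := (mul_eq_zero.mp h1).resolve_left hk
    have h2' := (mul_eq_zero.mp h2).resolve_left hk
    have hs : (sf i : ℂ) ≠ 0 := by exact_mod_cast (sf_pos i).ne'
    have e1 : p.b.c i = 0 := by
      push_cast at h1' h2'
      linear_combination (h1' + h2') / 2
    have e2 : (p.b.a i + p.b.α) * (sf i : ℂ) = 0 := by
      push_cast at h1' h2'
      linear_combination (h1' - h2') / 2
    exact ⟨e1, (mul_eq_zero.mp e2).resolve_right hs⟩
  have hα : p.b.α = 0 := by
    have hsum := summ p.b.a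
    have ht := hsum.tendsto_atTop_zero
    have hc : (fun i => ‖p.b.a i‖) = fun _ => ‖p.b.α‖ := by
      funext i
      have := (key i).2
      rw [eq_neg_of_add_eq_zero_left this, norm_neg]
    rw [hc] at ht
    have := tendsto_nhds_unique ht tendsto_const_nhds
    exact norm_eq_zero.mp this.symm
  apply TB.ext'
  · intro i; simpa using (key i).1
  · intro i; have := (key i).2; rw [hα, add_zero] at this; simpa using this
  · simpa using hα

lemma mem_rad_of_b (p : TA) (hp : p.b = 0) : p ∈ rad TA := by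
  change Unitization.inrHom ℂ ℂ TA p ∈ Ring.jacobson (Unitization ℂ TA)
  rw [← Ideal.jacobson_bot, Ideal.mem_jacobson_iff]
  intro y
  have hmul : ∀ p' : TA, p * p' = 0 := by
    intro p'
    apply ext'
    · simp [hp]
    · simp [hp]
  have hsq : (y * Unitization.inrHom ℂ ℂ TA p) * (y * Unitization.inrHom ℂ ℂ TA p) = 0 := by
    have h0 : Unitization.inrHom ℂ ℂ TA p * Unitization.inrHom ℂ ℂ TA p = 0 := by
      change (Unitization.inr p : Unitization ℂ TA) * Unitization.inr p = 0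
      rw [← Unitization.inr_mul, hmul]
      simp
    calc (y * Unitization.inrHom ℂ ℂ TA p) * (y * Unitization.inrHom ℂ ℂ TA p)
        = y * y * (Unitization.inrHom ℂ ℂ TA p * Unitization.inrHom ℂ ℂ TA p) := by ring
      _ = 0 := by rw [h0, mul_zero]
  refine ⟨1 - y * Unitization.inrHom ℂ ℂ TA p, ?_⟩
  rw [Ideal.mem_bot]
  linear_combination -hsq

lemma mem_rad_iff (p : TA) : p ∈ rad TA ↔ p.b = 0 := ⟨b_eq_zero_of_rad p, mem_rad_of_b p⟩

lemma rad_finiteDimensional : FiniteDimensional ℂ (rad TA) := by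
  let L : ℂ →ₗ[ℂ] TA := LinearMap.inr ℂ TB ℂ
  have h : rad TA ≤ LinearMap.range L := by
    intro p hp
    refine ⟨p.μ, ?_⟩
    apply ext'
    · exact (b_eq_zero_of_rad p hp).symm
    · rfl
  exact Submodule.finiteDimensional_of_le h

end TA

/-! ### Sequences whose square roots are summable -/

/-- square-root summability -/
def Half (f : ℕ → ℂ) : Prop := Summable fun i => √‖f i‖

lemma Half.of_mul {u v : ℕ → ℂ} (hu : Summable fun i => ‖u i‖) (hv : Summable fun i => ‖v i‖) :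
    Half fun i => u i * v i := by
  refine Summable.of_nonneg_of_le (fun _ => Real.sqrt_nonneg _) (fun i => ?_) (hu.add hv)
  rw [norm_mul]
  rw [Real.sqrt_le_left (by positivity)]
  nlinarith [norm_nonneg (u i), norm_nonneg (v i)]

lemma Half.add {f g : ℕ → ℂ} (hf : Half f) (hg : Half g) : Half fun i => f i + g i := by
  refine Summable.of_nonneg_of_le (fun _ => Real.sqrt_nonneg _) (fun i => ?_) (Summable.add hf hg)
  rw [Real.sqrt_le_left (by positivity)]
  have h1 := Real.sq_sqrt (norm_nonneg (f i))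
  have h2 := Real.sq_sqrt (norm_nonneg (g i))
  have h3 := mul_nonneg (Real.sqrt_nonneg ‖f i‖) (Real.sqrt_nonneg ‖g i‖)
  nlinarith [norm_add_le (f i) (g i)]

lemma Half.const_mul {f : ℕ → ℂ} (t : ℂ) (hf : Half f) : Half fun i => t * f i := by
  have : (fun i => √‖t * f i‖) = fun i => √‖t‖ * √‖f i‖ := by
    funext i
    rw [norm_mul, Real.sqrt_mul (norm_nonneg _)]
  unfold Half
  rw [this]
  exact Summable.mul_left _ hf

lemma Half.zero : Half fun _ => 0 := by unfold Half; simp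

lemma not_half_q : ¬ Half fun i => (qf i : ℂ) := by
  intro h
  apply sf_not_summable
  refine h.congr (fun i => ?_)
  rw [Complex.norm_real, Real.norm_eq_abs, abs_of_pos (qf_pos i), qf]
  exact Real.sqrt_sq (sf_pos i).le

lemma Half.mulc (p p' : TB) : Half fun i => (p * p').c i - kap * (p.α * p'.α) * (qf i : ℂ) := by
  have h1 : Half fun i => p.c i * p'.c i := Half.of_mul (summ _) (summ _)
  have hq : Summable fun i => ‖(qf i : ℂ)‖ := summ qL
  have h2 : Half fun i => p.a i * (p'.a i * (qf i : ℂ)) := by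
    refine Half.of_mul (summ _) ?_
    refine Summable.of_nonneg_of_le (fun _ => norm_nonneg _) (fun i => ?_) (hq.mul_left ‖p'.a‖)
    rw [norm_mul]
    exact mul_le_mul_of_nonneg_right (apply_le _ _) (norm_nonneg _)
  have h3 : Half fun i => (p.α * p'.a i) * (qf i : ℂ) := by
    refine Half.of_mul ?_ hq
    simp_rw [norm_mul]
    exact (summ p'.a).mul_left _
  have h4 : Half fun i => (p'.α * p.a i) * (qf i : ℂ) := by
    refine Half.of_mul ?_ hq
    simp_rw [norm_mul]
    exact (summ p.a).mul_left _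
  have h5 := (((h1.add h2).add h3).add h4).const_mul (kap : ℂ)
  convert h5 using 2 with i
  rw [TB.c_mul]
  ring

lemma half_of_mem_span (x : TA) (hx : x ∈ Submodule.span ℂ {z : TA | ∃ a b : TA, z = a * b}) :
    x.b.α = 0 ∧ Half fun i => x.b.c i - x.μ * (qf i : ℂ) := by
  induction hx using Submodule.span_induction with
  | mem x hx =>
    obtain ⟨p, p', rfl⟩ := hx
    refine ⟨by simp, ?_⟩
    simpa using Half.mulc p.b p'.b
  | zero => exact ⟨by simp, by simpa using Half.zero⟩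
  | add x y _ _ hx hy =>
    refine ⟨by simp [hx.1, hy.1], ?_⟩
    convert hx.2.add hy.2 using 2 with i
    simp only [TA.b_add, TB.c_add_apply, TA.μ_add]
    ring
  | smul t x _ hx =>
    refine ⟨by simp [hx.1], ?_⟩
    convert hx.2.const_mul t using 2 with i
    simp only [TA.b_smul, TB.c_smul_apply, TA.μ_smul]
    ring

lemma toFin {A : Type} [NonUnitalNormedRing A] {ι : Type} [Fintype ι] (a b : ι → A) :
    ∃ (n : ℕ) (a' b' : Fin n → A), ∑ i, a' i * b' i = ∑ i, a i * b i ∧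
      ∑ i, ‖a' i‖ * ‖b' i‖ = ∑ i, ‖a i‖ * ‖b i‖ := by
  refine ⟨Fintype.card ι, fun i => a ((Fintype.equivFin ι).symm i),
    fun i => b ((Fintype.equivFin ι).symm i), ?_, ?_⟩
  · exact Equiv.sum_comp (Fintype.equivFin ι).symm (fun i => a i * b i)
  · exact Equiv.sum_comp (Fintype.equivFin ι).symm (fun i => ‖a i‖ * ‖b i‖)

noncomputable def e (i : ℕ) : TA := TA.mk (TB.mk (lp.single 1 i (1 : ℂ)) 0 0) 0
noncomputable def X : TA := TA.mk (TB.mk 0 0 1) 0
noncomputable def ofc (f : L1) : TA := TA.mk (TB.mk f 0 0) 0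

lemma norm_ofc (f : L1) : ‖ofc f‖ ≤ ‖f‖ := by
  rw [TA.norm_le_iff]
  refine ⟨?_, by simp [ofc]⟩
  rw [TB.norm_le_iff]
  simp [ofc]

lemma norm_e (i : ℕ) : ‖e i‖ ≤ 1 := by
  refine (norm_ofc (lp.single 1 i (1 : ℂ))).trans ?_
  rw [lp.norm_single (by simp)]
  simp

lemma norm_X : ‖X‖ ≤ 1 := by
  rw [TA.norm_le_iff]
  refine ⟨?_, by simp [X]⟩
  rw [TB.norm_le_iff]
  simp [X]

/-- coordinate functionals -/
def cL (i : ℕ) : TA →+ ℂ where
  toFun p := p.b.c i
  map_zero' := rfl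
  map_add' _ _ := rfl
def aL (i : ℕ) : TA →+ ℂ where
  toFun p := p.b.a i
  map_zero' := rfl
  map_add' _ _ := rfl
def αL : TA →+ ℂ where
  toFun p := p.b.α
  map_zero' := rfl
  map_add' _ _ := rfl
def μL : TA →+ ℂ where
  toFun p := p.μ
  map_zero' := rfl
  map_add' _ _ := rfl

lemma cL_apply (i : ℕ) (p : TA) : cL i p = p.b.c i := rfl
lemma aL_apply (i : ℕ) (p : TA) : aL i p = p.b.a i := rfl
lemma αL_apply (p : TA) : αL p = p.b.α := rfl
lemma μL_apply (p : TA) : μL p = p.μ := rfl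

lemma ta_ext {p p' : TA} (h1 : ∀ i, cL i p = cL i p') (h2 : ∀ i, aL i p = aL i p')
    (h3 : αL p = αL p') (h4 : μL p = μL p') : p = p' :=
  TA.ext' (TB.ext' h1 h2 h3) h4

/-- truncated tail of the square root of a sequence -/
noncomputable def tl1 (g : ℕ → ℂ) (n i : ℕ) : ℂ := if i < n then 0 else (√‖g i‖ : ℝ)
noncomputable def tl2 (g : ℕ → ℂ) (n i : ℕ) : ℂ := if i < n then 0 else g i / (√‖g i‖ : ℝ)

lemma norm_tl1 (g : ℕ → ℂ) (n i : ℕ) : ‖tl1 g n i‖ = if i < n then 0 else √‖g i‖ := by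
  unfold tl1
  split_ifs
  · simp
  · rw [Complex.norm_real, Real.norm_eq_abs, abs_of_nonneg (Real.sqrt_nonneg _)]

lemma norm_tl2 (g : ℕ → ℂ) (n i : ℕ) : ‖tl2 g n i‖ = if i < n then 0 else √‖g i‖ := by
  unfold tl2
  split_ifs
  · simp
  · rw [norm_div, Complex.norm_real, Real.norm_eq_abs, abs_of_nonneg (Real.sqrt_nonneg _)]
    exact Real.div_sqrt

lemma tl_mul (g : ℕ → ℂ) (n i : ℕ) : tl1 g n i * tl2 g n i = if i < n then 0 else g i := by
  unfold tl1 tl2
  split_ifs
  · simp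
  · by_cases h : g i = 0
    · simp [h]
    · have : ((√‖g i‖ : ℝ) : ℂ) ≠ 0 := by
        have : 0 < √‖g i‖ := Real.sqrt_pos.mpr (norm_pos_iff.mpr h)
        exact_mod_cast this.ne'
      field_simp

lemma tail_summable {g : ℕ → ℂ} (hg : Half g) (n : ℕ) :
    Summable fun i => if i < n then 0 else √‖g i‖ := by
  refine Summable.of_nonneg_of_le (fun i => ?_) (fun i => ?_) hg
  · split_ifs <;> positivity
  · split_ifs
    · positivity
    · exact le_rfl

lemma tail_tsum {g : ℕ → ℂ} (hg : Half g) (n : ℕ) :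
    ∑' i, (if i < n then 0 else √‖g i‖) = ∑' k, √‖g (k + n)‖ := by
  rw [← (tail_summable hg n).sum_add_tsum_nat_add n]
  have h1 : ∑ i ∈ Finset.range n, (if i < n then 0 else √‖g i‖) = 0 := by
    apply Finset.sum_eq_zero
    intro i hi
    simp [Finset.mem_range.mp hi]
  rw [h1, zero_add]
  apply tsum_congr
  intro k
  simp

lemma exists_small_tail {g : ℕ → ℂ} (hg : Half g) {δ : ℝ} (hδ : 0 < δ) :
    ∃ n, ∑' i, (if i < n then 0 else √‖g i‖) < δ := by
  have h := tendsto_sum_nat_add (fun i => √‖g i‖)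
  have h2 := (h.eventually (gt_mem_nhds hδ)).exists
  obtain ⟨n, hn⟩ := h2
  exact ⟨n, by rw [tail_tsum hg]; exact hn⟩

theorem propertyS_TA : PropS TA := by
  have hkpos := kap_pos
  have hkC : (kap : ℂ) ≠ 0 := by exact_mod_cast kap_pos.ne'
  have hkn : ‖(kap : ℂ)‖ = kap := by simp [abs_of_pos kap_pos]
  refine ⟨(1 / kap) * (4 + ‖qL‖), by positivity, ?_⟩
  intro x hx
  obtain ⟨hα, hhalf⟩ := half_of_mem_span x hx
  by_cases hx0 : x = 0
  · refine ⟨0, fun _ => 0, fun _ => 0, ?_, ?_⟩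
    · simp [hx0]
    · simp [hx0]
  have hxpos : 0 < ‖x‖ := norm_pos_iff.mpr hx0
  set g : ℕ → ℂ := fun i => x.b.c i - x.μ * (qf i : ℂ) with hg
  set gL : L1 := x.b.c - x.μ • qL with hgL
  have hgLi : ∀ i, gL i = g i := fun i => rfl
  obtain ⟨n, hn⟩ := exists_small_tail hhalf (Real.sqrt_pos.mpr hxpos)
  have hs1 : Summable fun i => ‖tl1 g n i‖ := by
    simp_rw [norm_tl1]; exact tail_summable hhalf n
  have hs2 : Summable fun i => ‖tl2 g n i‖ := by
    simp_rw [norm_tl2]; exact tail_summable hhalf n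
  set Y : L1 := mkL1 (tl1 g n) hs1 with hY
  set Z : L1 := mkL1 (tl2 g n) hs2 with hZ
  have hYn : ‖Y‖ ≤ √‖x‖ := by
    rw [normL1]
    calc ∑' i, ‖Y i‖ = ∑' i, (if i < n then 0 else √‖g i‖) := by
          apply tsum_congr; intro i; exact norm_tl1 g n i
      _ ≤ _ := hn.le
  have hZn : ‖Z‖ ≤ √‖x‖ := by
    rw [normL1]
    calc ∑' i, ‖Z i‖ = ∑' i, (if i < n then 0 else √‖g i‖) := by
          apply tsum_congr; intro i; exact norm_tl2 g n i
      _ ≤ _ := hn.le
  -- the representation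
  let A : Fin n ⊕ Fin 3 → TA := Sum.elim (fun i : Fin n => (g i / kap) • e i)
    ![(x.μ / kap) • X, (1 / kap : ℂ) • ofc x.b.a, (1 / kap : ℂ) • ofc Y]
  let B : Fin n ⊕ Fin 3 → TA := Sum.elim (fun i : Fin n => e i) ![X, X, ofc Z]
  obtain ⟨N, A', B', hAB, hnorm⟩ := toFin A B
  refine ⟨N, A', B', ?_, ?_⟩
  · rw [hAB, Fintype.sum_sum_type, Fin.sum_univ_three]
    simp only [A, B, Sum.elim_inl, Sum.elim_inr, Matrix.cons_val_zero, Matrix.cons_val_one,
      Matrix.cons_val_two, Matrix.head_cons, Matrix.tail_cons]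
    apply ta_ext
    · intro j
      rw [map_add, map_add, map_add, map_sum]
      have hhead : ∀ i : Fin n, cL j ((g i / kap) • e i * e i) =
          if (i : ℕ) = j then g j else 0 := by
        intro i
        simp only [cL_apply, TA.b_mul, TA.b_smul, TB.c_mul,
          TB.c_smul_apply, TB.a_smul_apply, TB.α_smul, e, TA.b_mk, TB.c_mk, TB.a_mk, TB.α_mk]
        by_cases hij : (i : ℕ) = j
        · subst hij
          simp [lp.single_apply]
          field_simp
        · have hij' : j ≠ (i : ℕ) := fun h => hij h.symm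
          simp [lp.single_apply, hij, hij']
      rw [Finset.sum_congr rfl (fun i _ => hhead i)]
      have hhead2 : ∑ i : Fin n, (if (i : ℕ) = j then g j else 0) = if j < n then g j else 0 := by
        rw [Fin.sum_univ_eq_sum_range (fun i => if i = j then g j else 0) n]
        simp
      rw [hhead2]
      simp only [cL_apply, TA.b_mul, TA.b_smul, TB.c_mul,
          TB.c_smul_apply, TB.a_smul_apply, TB.α_smul, X, ofc, TA.b_mk, TB.c_mk, TB.a_mk, TB.α_mk]
      have htl : Y j * Z j = if j < n then 0 else g j := tl_mul g n j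
      have hgj : g j = x.b.c j - x.μ * (qf j : ℂ) := rfl
      have h0 : ((0 : L1) j) = 0 := rfl
      rw [h0]
      have e1 : (kap : ℂ) * (x.μ / kap * 0 * 0 + (x.μ / kap * 0 + x.μ / kap * 1) * (0 + 1) * (qf j : ℂ))
          = x.μ * (qf j : ℂ) := by field_simp; ring
      have e2 : (kap : ℂ) * (1 / kap * Y j * Z j + (1 / kap * 0 + 1 / kap * 0) * (0 + 0) * (qf j : ℂ))
          = Y j * Z j := by field_simp; ring
      have e3 : (kap : ℂ) * (1 / kap * x.b.a j * 0 + (1 / kap * 0 + 1 / kap * 0) * (0 + 1) * (qf j : ℂ))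
          = 0 := by ring
      rw [e1, e2, e3, htl]
      split_ifs
      · rw [hgj]; ring
      · rw [hgj]; ring
    · intro j
      rw [map_add, map_add, map_add, map_sum]
      have hhead : ∀ i : Fin n, aL j ((g i / kap) • e i * e i) = 0 := by
        intro i
        simp only [aL_apply, TA.b_mul, TA.b_smul, TB.a_mul,
          TB.c_smul_apply, TB.a_smul_apply, TB.α_smul, e, TA.b_mk, TB.c_mk, TB.a_mk, TB.α_mk]
        have h0 : ((0 : L1) j) = 0 := rfl
        rw [h0]
        ring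
      rw [Finset.sum_congr rfl (fun i _ => hhead i)]
      simp only [aL_apply, TA.b_mul, TA.b_smul, TB.a_mul,
          TB.c_smul_apply, TB.a_smul_apply, TB.α_smul, X, ofc, TA.b_mk, TB.c_mk, TB.a_mk, TB.α_mk]
      have h0 : ((0 : L1) j) = 0 := rfl
      rw [h0]
      simp only [Finset.sum_const_zero]
      field_simp
      ring
    · rw [map_add, map_add, map_add, map_sum]
      have hall : ∀ p p' : TA, αL (p * p') = 0 := fun p p' => rfl
      simp only [hall, Finset.sum_const_zero, add_zero]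
      exact hα
    · rw [map_add, map_add, map_add, map_sum]
      have hhead : ∀ i : Fin n, μL ((g i / kap) • e i * e i) = 0 := by
        intro i
        simp [μL_apply, e]
      rw [Finset.sum_congr rfl (fun i _ => hhead i)]
      simp only [μL_apply, TA.μ_mul, TA.b_smul, TB.α_smul, X, ofc,
        TA.b_mk, TB.α_mk, Finset.sum_const_zero]
      field_simp
      ring
  · rw [hnorm, Fintype.sum_sum_type, Fin.sum_univ_three]
    simp only [A, B, Sum.elim_inl, Sum.elim_inr, Matrix.cons_val_zero, Matrix.cons_val_one,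
      Matrix.cons_val_two, Matrix.head_cons, Matrix.tail_cons]
    have hμ : ‖x.μ‖ ≤ ‖x‖ := TA.norm_μ_le x
    have ha : ‖x.b.a‖ ≤ ‖x‖ := (TB.norm_a_le _).trans (TA.norm_b_le x)
    have hc : ‖x.b.c‖ ≤ ‖x‖ := (TB.norm_c_le _).trans (TA.norm_b_le x)
    have hgLn : ‖gL‖ ≤ ‖x‖ * (1 + ‖qL‖) := by
      calc ‖gL‖ ≤ ‖x.b.c‖ + ‖x.μ • qL‖ := norm_sub_le _ _
        _ = ‖x.b.c‖ + ‖x.μ‖ * ‖qL‖ := by rw [norm_smul]
        _ ≤ ‖x‖ + ‖x‖ * ‖qL‖ := add_le_add hc (mul_le_mul_of_nonneg_right hμ (norm_nonneg _))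
        _ = _ := by ring
    have hheadn : ∑ i : Fin n, ‖(g i / kap) • e i‖ * ‖e (i : ℕ)‖ ≤ (1 / kap) * ‖gL‖ := by
      calc ∑ i : Fin n, ‖(g i / kap) • e i‖ * ‖e (i : ℕ)‖
          ≤ ∑ i : Fin n, (1 / kap) * ‖g i‖ := by
            apply Finset.sum_le_sum
            intro i _
            rw [norm_smul, norm_div, hkn]
            have he := norm_e i
            have he0 := norm_nonneg (e i)
            calc ‖g i‖ / kap * ‖e (i : ℕ)‖ * ‖e (i : ℕ)‖ ≤ ‖g i‖ / kap * 1 * 1 := by gcongr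
              _ = (1 / kap) * ‖g i‖ := by ring
        _ = (1 / kap) * ∑ i ∈ Finset.range n, ‖gL i‖ := by
            rw [← Finset.mul_sum, Fin.sum_univ_eq_sum_range (fun i => ‖g i‖) n]
            rfl
        _ ≤ (1 / kap) * ‖gL‖ := by
            apply mul_le_mul_of_nonneg_left _ (by positivity)
            rw [normL1]
            exact (summ gL).sum_le_tsum _ (fun _ _ => norm_nonneg _)
    have h1 : ‖(x.μ / kap) • X‖ * ‖X‖ ≤ (1 / kap) * ‖x‖ := by
      rw [norm_smul, norm_div, hkn]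
      have hX := norm_X
      calc ‖x.μ‖ / kap * ‖X‖ * ‖X‖ ≤ ‖x‖ / kap * 1 * 1 := by gcongr
        _ = (1 / kap) * ‖x‖ := by ring
    have h2 : ‖(1 / kap : ℂ) • ofc x.b.a‖ * ‖X‖ ≤ (1 / kap) * ‖x‖ := by
      rw [norm_smul, norm_div, hkn, norm_one]
      have hX := norm_X
      have := (norm_ofc x.b.a).trans ha
      calc 1 / kap * ‖ofc x.b.a‖ * ‖X‖ ≤ 1 / kap * ‖x‖ * 1 := by gcongr
        _ = (1 / kap) * ‖x‖ := by ring
    have h3 : ‖(1 / kap : ℂ) • ofc Y‖ * ‖ofc Z‖ ≤ (1 / kap) * ‖x‖ := by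
      rw [norm_smul, norm_div, hkn, norm_one]
      have hy := (norm_ofc Y).trans hYn
      have hz := (norm_ofc Z).trans hZn
      calc 1 / kap * ‖ofc Y‖ * ‖ofc Z‖ ≤ 1 / kap * √‖x‖ * √‖x‖ := by gcongr
        _ = 1 / kap * (√‖x‖ * √‖x‖) := by ring
        _ = (1 / kap) * ‖x‖ := by rw [Real.mul_self_sqrt (norm_nonneg _)]
    calc _ ≤ (1 / kap) * ‖gL‖ + ((1 / kap) * ‖x‖ + (1 / kap) * ‖x‖ + (1 / kap) * ‖x‖) := by
          gcongr
      _ ≤ (1 / kap) * (‖x‖ * (1 + ‖qL‖)) + ((1 / kap) * ‖x‖ + (1 / kap) * ‖x‖ + (1 / kap) * ‖x‖) := by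
          gcongr
      _ = (1 / kap) * (4 + ‖qL‖) * ‖x‖ := by ring

/-! ### Failure of property (S) for `TB` -/

/-- coordinate functionals on `TB` -/
def cB (i : ℕ) : TB →+ ℂ where
  toFun p := p.c i
  map_zero' := rfl
  map_add' _ _ := rfl
lemma cB_apply (i : ℕ) (p : TB) : cB i p = p.c i := rfl

lemma Half.sum {n : ℕ} (f : Fin n → ℕ → ℂ) (h : ∀ j, Half (f j)) :
    Half fun i => ∑ j, f j i := by
  classical
  have : ∀ s : Finset (Fin n), Half fun i => ∑ j ∈ s, f j i := by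
    intro s
    induction s using Finset.induction_on with
    | empty => simpa using Half.zero
    | insert a s ha ih =>
      have := (h a).add ih
      convert this using 2 with i
      rw [Finset.sum_insert ha]
  exact this Finset.univ

noncomputable def eB (i : ℕ) : TB := TB.mk (lp.single 1 i (1 : ℂ)) 0 0
noncomputable def XB : TB := TB.mk 0 0 1

/-- tails of `q` -/
noncomputable def tailq (n : ℕ) : TB :=
  (1 / kap : ℂ) • (XB * XB) - ∑ i ∈ Finset.range n, ((qf i : ℂ) / kap) • (eB i * eB i)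

lemma tailq_mem (n : ℕ) : tailq n ∈ Submodule.span ℂ {z : TB | ∃ a b : TB, z = a * b} := by
  unfold tailq
  apply Submodule.sub_mem
  · exact Submodule.smul_mem _ _ (Submodule.subset_span ⟨_, _, rfl⟩)
  · exact Submodule.sum_mem _ fun i _ =>
      Submodule.smul_mem _ _ (Submodule.subset_span ⟨_, _, rfl⟩)

lemma tailq_c (n i : ℕ) : (tailq n).c i = if i < n then 0 else (qf i : ℂ) := by
  have hkC : (kap : ℂ) ≠ 0 := by exact_mod_cast kap_pos.ne'
  rw [← cB_apply]
  unfold tailq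
  rw [map_sub, map_sum]
  have h1 : cB i ((1 / kap : ℂ) • (XB * XB)) = (qf i : ℂ) := by
    simp only [cB_apply, TB.c_smul_apply, TB.c_mul, XB, TB.c_mk, TB.a_mk, TB.α_mk]
    have h0 : ((0 : L1) i) = 0 := rfl
    rw [h0]
    field_simp
    ring
  have h2 : ∀ j ∈ Finset.range n, cB i (((qf j : ℂ) / kap) • (eB j * eB j)) =
      if j = i then (qf i : ℂ) else 0 := by
    intro j _
    simp only [cB_apply, TB.c_smul_apply, TB.c_mul, eB, TB.c_mk, TB.a_mk, TB.α_mk]
    by_cases hij : j = i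
    · subst hij
      simp [lp.single_apply]
      field_simp
    · have hij' : i ≠ j := fun h => hij h.symm
      simp [lp.single_apply, hij, hij']
  rw [h1, Finset.sum_congr rfl h2]
  rw [Finset.sum_ite_eq']
  by_cases hi : i < n
  · simp [hi]
  · simp [hi]

lemma tailq_α (n : ℕ) : (tailq n).α = 0 := by
  let αB : TB →+ ℂ := ⟨⟨fun p => p.α, rfl⟩, fun _ _ => rfl⟩
  have hαB : ∀ p, αB p = p.α := fun _ => rfl
  rw [← hαB]
  unfold tailq
  rw [map_sub, map_sum]
  have h1 : αB ((1 / kap : ℂ) • (XB * XB)) = 0 := by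
    rw [hαB, TB.α_smul, TB.α_mul, mul_zero]
  have h2 : ∀ j ∈ Finset.range n, αB (((qf j : ℂ) / kap) • (eB j * eB j)) = 0 := by
    intro j _
    rw [hαB, TB.α_smul, TB.α_mul, mul_zero]
  rw [h1, Finset.sum_eq_zero h2, sub_zero]

lemma tailq_a (n i : ℕ) : (tailq n).a i = 0 := by
  let aB : TB →+ ℂ := ⟨⟨fun p => p.a i, rfl⟩, fun _ _ => rfl⟩
  have haB : ∀ p, aB p = p.a i := fun _ => rfl
  rw [← haB]
  unfold tailq
  rw [map_sub, map_sum]
  have h0 : ((0 : L1) i) = 0 := rfl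
  have h1 : aB ((1 / kap : ℂ) • (XB * XB)) = 0 := by
    rw [haB]
    simp only [TB.a_smul_apply, TB.a_mul, XB, TB.c_mk, TB.a_mk, TB.α_mk]
    rw [h0]
    ring
  have h2 : ∀ j ∈ Finset.range n, aB (((qf j : ℂ) / kap) • (eB j * eB j)) = 0 := by
    intro j _
    rw [haB]
    simp only [TB.a_smul_apply, TB.a_mul, eB, TB.c_mk, TB.a_mk, TB.α_mk]
    rw [h0]
    ring
  rw [h1, Finset.sum_eq_zero h2, sub_zero]

lemma norm_tailq (n : ℕ) : ‖tailq n‖ ≤ ∑' k, qf (k + n) := by
  have hnn : 0 ≤ ∑' k, qf (k + n) := tsum_nonneg fun k => (qf_pos _).le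
  rw [TB.norm_le_iff]
  refine ⟨?_, ?_, ?_⟩
  · rw [normL1]
    have hs : Summable fun i => ‖(tailq n).c i‖ := summ _
    rw [← hs.sum_add_tsum_nat_add n]
    have h1 : ∑ i ∈ Finset.range n, ‖(tailq n).c i‖ = 0 := by
      apply Finset.sum_eq_zero
      intro i hi
      rw [tailq_c, if_pos (Finset.mem_range.mp hi), norm_zero]
    rw [h1, zero_add]
    apply le_of_eq
    apply tsum_congr
    intro k
    rw [tailq_c, if_neg (by omega), Complex.norm_real, Real.norm_eq_abs, abs_of_pos (qf_pos _)]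
  · have : (tailq n).a = 0 := lp.ext (funext fun i => tailq_a n i)
    rw [this, norm_zero]
    exact hnn
  · rw [tailq_α, norm_zero]; exact hnn

lemma one_le_of_rep (n N : ℕ) (a b : Fin N → TB) (h : tailq n = ∑ i, a i * b i) :
    1 ≤ kap * ∑ i, ‖a i‖ * ‖b i‖ := by
  set m : ℂ := ∑ j, kap * ((a j).α * (b j).α) with hm
  have h1 : Half fun i => ∑ j, ((a j * b j).c i - kap * ((a j).α * (b j).α) * (qf i : ℂ)) :=
    Half.sum _ fun j => Half.mulc (a j) (b j)
  have h2 : ∀ i, ∑ j, ((a j * b j).c i - kap * ((a j).α * (b j).α) * (qf i : ℂ))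
      = (tailq n).c i - m * (qf i : ℂ) := by
    intro i
    rw [Finset.sum_sub_distrib, ← Finset.sum_mul, h]
    congr 1
    rw [← cB_apply, map_sum]
    rfl
  have h3 : Half fun i => (tailq n).c i - m * (qf i : ℂ) := by
    have h4 : (fun i => ∑ j, ((a j * b j).c i - kap * ((a j).α * (b j).α) * (qf i : ℂ)))
      = fun i => (tailq n).c i - m * (qf i : ℂ) := funext h2
    rw [← h4]
    exact h1
  -- hence `m = 1`
  have hm1 : m = 1 := by
    by_contra hne
    have hfin : Half fun i => (if i < n then (qf i : ℂ) else 0) := by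
      unfold Half
      apply summable_of_ne_finset_zero (s := Finset.range n)
      intro i hi
      have : ¬ i < n := by simpa using hi
      simp [this]
    have h5 : Half fun i => (1 - m) * (qf i : ℂ) := by
      convert h3.add hfin using 2 with i
      rw [tailq_c]
      split_ifs <;> ring
    have h6 := h5.const_mul (1 - m)⁻¹
    apply not_half_q
    convert h6 using 2 with i
    have : (1 - m) ≠ 0 := sub_ne_zero.mpr (Ne.symm hne)
    field_simp
  have h7 : ‖m‖ ≤ kap * ∑ i, ‖a i‖ * ‖b i‖ := by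
    rw [hm, Finset.mul_sum]
    refine (norm_sum_le _ _).trans (Finset.sum_le_sum fun j _ => ?_)
    rw [norm_mul, norm_mul, show ‖(kap : ℂ)‖ = kap by simp [abs_of_pos kap_pos]]
    apply mul_le_mul_of_nonneg_left _ kap_pos.le
    exact mul_le_mul (TB.norm_α_le _) (TB.norm_α_le _) (norm_nonneg _) (norm_nonneg _)
  rw [hm1, norm_one] at h7
  exact h7

theorem not_propertyS_TB : ¬ PropS TB := by
  rintro ⟨C, hC, h⟩
  have ht : Filter.Tendsto (fun n => kap * (C * ∑' k, qf (k + n))) Filter.atTop (nhds 0) := by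
    have := (tendsto_sum_nat_add qf).const_mul C
    have := this.const_mul kap
    simpa using this
  obtain ⟨n, hn⟩ := (ht.eventually (gt_mem_nhds (zero_lt_one))).exists
  obtain ⟨N, a, b, hab, hle⟩ := h (tailq n) (tailq_mem n)
  have h1 := one_le_of_rep n N a b hab
  have h2 : kap * ∑ i, ‖a i‖ * ‖b i‖ ≤ kap * (C * ∑' k, qf (k + n)) := by
    apply mul_le_mul_of_nonneg_left _ kap_pos.le
    refine hle.trans ?_
    exact mul_le_mul_of_nonneg_left (norm_tailq n) hC.le
  linarith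

theorem norm_φ (a : TA) : ‖TA.φ a‖ = ⨅ r : rad TA, ‖a + (r : TA)‖ := by
  apply le_antisymm
  · apply le_ciInf
    intro r
    have hr := (TA.mem_rad_iff _).mp r.2
    have : TA.φ a = (a + (r : TA)).b := by
      rw [TA.b_add, hr, add_zero, TA.φ_apply]
    rw [this]
    exact TA.norm_b_le _
  · have hmem : TA.mk 0 (-a.μ) ∈ rad TA := (TA.mem_rad_iff _).mpr rfl
    refine (ciInf_le ⟨0, ?_⟩ (⟨TA.mk 0 (-a.μ), hmem⟩ : rad TA)).trans ?_
    · rintro _ ⟨r, rfl⟩
      exact norm_nonneg _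
    · change ‖a + TA.mk 0 (-a.μ)‖ ≤ ‖TA.φ a‖
      rw [TA.norm_le_iff]
      refine ⟨?_, ?_⟩
      · rw [TA.b_add, TA.b_mk, add_zero, TA.φ_apply]
      · rw [TA.μ_add, TA.μ_mk, add_neg_cancel, norm_zero]
        exact norm_nonneg _

/-- `TA` as a bundled Banach algebra. -/
noncomputable def bigA : BanachAlgebra := ⟨TA⟩

/-- `TB` as a bundled Banach algebra. -/
noncomputable def bigB : BanachAlgebra := ⟨TB⟩

/-- The quotient map. -/
def quot : bigA →ₙₐ[ℂ] bigB := TA.φ

theorem isQuotient_quot : IsQuotient bigA bigB (rad bigA) quot where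
  surjective := fun b => ⟨TA.mk b 0, rfl⟩
  ker := fun a => (TA.mem_rad_iff a).symm
  norm_eq := norm_φ

end Pool.Agent.Lib.MP_a0c03c_an
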